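import Mathlib
import Pool.Agent.R463.EX13

set_option autoImplicit false

/-!
# The exact local structure of the almost prime quadruplets in arithmetic progressions
-/

namespace Pool.Agent.Results.MP_fc51f7_nt.ExactBlocks

open Finset Filter

/-- for `n = q m + c` none of the `n + h`, `h ∈ H`, has a prime factor `p ≤ X ^ (1 / r)` -/
def Good (H : Finset ℕ) (q c X r m : ℕ) : Prop :=
  ∀ p : ℕ, p.Prime → (p : ℝ) ≤ (X : ℝ) ^ (1 / (r : ℝ)) → ∀ h ∈ H, ¬ p ∣ q * m + c + h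

/-- `0` for the prime factors of `q`, otherwise the number of the `n` modulo `p` for which `p` divides some
`n + h`, `h ∈ H` -/
def nu (H : Finset ℕ) (q p : ℕ) : ℕ :=
  if p ∣ q then 0 else ((range p).filter (fun n : ℕ => ∃ h ∈ H, p ∣ n + h)).card

/-- the density of the good integers: the product of `1 - nu(p) / p` over the primes `p ≤ X ^ (1 / r)` -/
noncomputable def V (H : Finset ℕ) (q X r : ℕ) : ℝ :=
  ∏ p ∈ (Icc 1 ⌊(X : ℝ) ^ (1 / (r : ℝ))⌋₊).filter Nat.Prime, (1 - (nu H q p : ℝ) / p)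

open Classical in
/-- the number of the residues `m` modulo `p` for which `p` divides some `q (m + j) + c + h`, `j ∈ J`,
`h ∈ H` -/
noncomputable def nuJ (H : Finset ℕ) (q c : ℕ) (J : Finset ℕ) (p : ℕ) : ℕ :=
  ((range p).filter (fun m : ℕ => ∃ j ∈ J, ∃ h ∈ H, p ∣ q * (m + j) + c + h)).card

/-- the density of the pattern `J`: the product of `1 - nuJ(p) / p` over the primes `p ≤ X ^ (1 / r)` -/
noncomputable def VJ (H : Finset ℕ) (q c : ℕ) (J : Finset ℕ) (X r : ℕ) : ℝ :=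
  ∏ p ∈ (Icc 1 ⌊(X : ℝ) ^ (1 / (r : ℝ))⌋₊).filter Nat.Prime, (1 - (nuJ H q c J p : ℝ) / p)

open Classical in
/-- the number of the `m` in `(Z, Z + Y]` for which the good integers in `[m, m + L]` are exactly the
integers `m + j` with `j ∈ J` -/
noncomputable def Blocks (H : Finset ℕ) (q c : ℕ) (J : Finset ℕ) (L X r Z Y : ℕ) : ℕ :=
  ((Ioc Z (Z + Y)).filter (fun m => ∀ j ≤ L, Good H q c X r (m + j) ↔ j ∈ J)).card

lemma adm (H : Finset ℕ) (hH : H = {0, 2, 6, 8}) :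
    2 ≤ H.card ∧ ∀ p : ℕ, p.Prime → ∃ n : ℕ, ∀ h ∈ H, ¬ p ∣ n + h := by
  subst hH
  exact ⟨by decide, Pool.Agent.R463.LT.adm_two _ 5 101 (by decide)⟩

lemma lt_q (H : Finset ℕ) (hH : H = {0, 2, 6, 8}) (q : ℕ) (hq : 8 < q) : ∀ h ∈ H, h < q := by
  subst hH
  intro h hh
  simp only [mem_insert, mem_singleton] at hh
  omega

/-- **The exact local structure of the almost prime quadruplets in progressions.** For `A`, `K`, `θ > 0`, `x₀` and
`ε > 0` there is `r₀` such that for all `r ≥ r₀` and all large `X` the following holds uniformly for ALL moduli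
`8 < q ≤ X ^ A` and residues `c ≤ X ^ A` with all `c + h`, `h ∈ H`, prime to `q`, for ALL intervals
`(Z, Z + Y]` with `Y ≥ X ^ θ`, ALL sets `J` of at most `K` natural numbers with `0 ∈ J` and all `L ≥ max J`
with `L V ≤ x₀`: the number of the `m` in the interval for which the good integers in `[m, m + L]` are exactly
the `m + j`, `j ∈ J`, is `Y VJ exp (- L V)`, up to the factor `1 ± ε`. -/
theorem result (H : Finset ℕ) (hH : H = {0, 2, 6, 8}) (A K : ℕ) (θ : ℝ) (hθ : 0 < θ)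
    (x₀ ε : ℝ) (hε : 0 < ε) :
    ∃ r₀ : ℕ, 2 ≤ r₀ ∧ ∀ r : ℕ, r₀ ≤ r → ∀ᶠ X : ℕ in atTop, ∀ q c : ℕ, 8 < q → q ≤ X ^ A →
      c ≤ X ^ A → (∀ h ∈ H, Nat.Coprime q (c + h)) →
      ∀ Z Y : ℕ, (X : ℝ) ^ θ ≤ Y → ∀ J : Finset ℕ, J.card ≤ K → 0 ∈ J → ∀ L : ℕ,
        (∀ j ∈ J, j ≤ L) → L * V H q X r ≤ x₀ →
        |(Blocks H q c J L X r Z Y : ℝ) - Y * VJ H q c J X r * Real.exp (-(L * V H q X r))| ≤
          ε * (Y * VJ H q c J X r * Real.exp (-(L * V H q X r))) := by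
  obtain ⟨r₀, hr₀, h⟩ := Pool.Agent.R463.LT.blocksH H (adm H hH).1 (adm H hH).2 A K θ hθ x₀ ε hε
  refine ⟨r₀, hr₀, fun r hr => ?_⟩
  filter_upwards [h r hr] with X hX q c hq hqX hcX hcop Z Y hY J hJ h0 L hL hx
  exact hX q c (by omega) hqX hcX hcop (lt_q H hH q hq) Z Y hY J hJ h0 L hL hx

end Pool.Agent.Results.MP_fc51f7_nt.ExactBlocks
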