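import Mathlib
import Pool.Agent.R463.LinT

set_option autoImplicit false

/-!
# Narrow progressions in arbitrary sets of prime or almost prime quadruplets

For `H = {0, 2, 6, 8}`, in short intervals.
-/

namespace Pool.Agent.Results.MP_fc51f7_nt.NarrowProgressions

open Finset Filter

/-- the `n` such that all prime factors of the numbers `n + h`, `h ∈ H`, are larger than `n ^ (1 / r)` -/
def RoughAt (H : Finset ℕ) (r : ℕ) : Set ℕ :=
  {n | ∀ h ∈ H, ∀ p : ℕ, p.Prime → p ∣ n + h → (n : ℝ) ^ (1 / (r : ℝ)) < (p : ℝ)}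

/-- `n` is a term of an `l`-term arithmetic progression with difference at most `D`, all terms of which
are elements of `A` in the interval `(a, b]`. -/
def InProgression (A : Set ℕ) (l : ℕ) (D : ℝ) (a b n : ℕ) : Prop :=
  ∃ u d : ℕ, 1 ≤ d ∧ (d : ℝ) ≤ D ∧ (∀ i < l, u + i * d ∈ A ∧ a < u + i * d ∧ u + i * d ≤ b) ∧
    ∃ i < l, n = u + i * d

lemma adm (H : Finset ℕ) (hH : H = {0, 2, 6, 8}) :
    H.card = 4 ∧ ∀ p : ℕ, p.Prime → ∃ n : ℕ, ∀ h ∈ H, ¬ p ∣ n + h := by
  subst hH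
  exact ⟨by decide, Pool.Agent.R463.LT.adm_two _ 5 101 (by decide)⟩

open Classical in
/-- **Narrow progressions in arbitrary sets of prime or almost prime quadruplets.** (1) For `r ≥ 2` all `n ≥ 2` for which all `n + h`,
`h ∈ H`, are prime are in `RoughAt H r`: no `n + h` has a prime factor `≤ n ^ (1 / r)`. (2) For `θ, ε > 0` and
`r, l ≥ 2` there is an exponent `B` such that for all large `X`, all `X ^ θ ≤ Y ≤ X` and EVERY set `A` of `n`
such that no `n + h`, `h ∈ H`, has a prime factor `≤ n ^ (1 / r)`, for instance every set of `n ≥ 2` for which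
they are all prime: all but at most `ε Y / (log X) ^ 4` of the elements of `A` in `(X, X + Y]` are terms of
`l`-term arithmetic progressions, contained in the part of `A` in `(X, X + Y]`, with difference at most
`(log X) ^ B`. -/
theorem result (H : Finset ℕ) (hH : H = {0, 2, 6, 8}) :
    (∀ r : ℕ, 2 ≤ r → ∀ n : ℕ, 2 ≤ n → (∀ h ∈ H, (n + h).Prime) → n ∈ RoughAt H r) ∧
    ∀ θ : ℝ, 0 < θ → ∀ r : ℕ, 2 ≤ r → ∀ l : ℕ, 2 ≤ l → ∀ ε : ℝ, 0 < ε →
    ∃ B : ℕ, ∀ᶠ X : ℕ in atTop, ∀ Y : ℕ, (X : ℝ) ^ θ ≤ Y → Y ≤ X →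
      ∀ A : Set ℕ, A ⊆ RoughAt H r →
        (((Ioc X (X + Y)).filter (fun n : ℕ =>
          n ∈ A ∧ ¬ InProgression A l (Real.log X ^ B) X (X + Y) n)).card : ℝ) ≤
        ε * (Y / Real.log X ^ 4) := by
  obtain ⟨h1, h2⟩ := adm H hH
  refine ⟨fun r hr n hn hp => Pool.Agent.R463.LT.rough_mem H r hr n hn hp, ?_⟩
  intro θ hθ r hr l hl ε hε
  have h3 := Pool.Agent.R463.LT.narH H (by omega) h2 θ hθ r hr l hl ε hε
  rw [h1] at h3
  exact h3

end Pool.Agent.Results.MP_fc51f7_nt.NarrowProgressions
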